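import Mathlib

set_option autoImplicit false

open Cardinal

namespace Pool.Agent.Results.MP_47ceec_an.DensityGeContinuum

universe u

/-- The density (character) of a topological space: the least cardinality of a dense subset. -/
noncomputable def density (X : Type u) [TopologicalSpace X] : Cardinal.{u} :=
  sInf {κ | ∃ s : Set X, Dense s ∧ #s = κ}

/-- `X` is a strong Gurarii space (a space of universal disposition for finite-dimensional
spaces): for every finite-dimensional real normed space `F`, every linear subspace `E` of `F`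
and every linear isometric embedding `f : E → X` there is a linear isometric embedding
`g : F → X` with `g = f` on `E`. -/
def StrongGurarii (X : Type u) [NormedAddCommGroup X] [NormedSpace ℝ X] : Prop :=
  ∀ (F : Type) [NormedAddCommGroup F] [NormedSpace ℝ F] [FiniteDimensional ℝ F]
    (E : Submodule ℝ F) (f : E →ₗᵢ[ℝ] X), ∃ g : F →ₗᵢ[ℝ] X, ∀ e : E, g e = f e

abbrev E2 := EuclideanSpace ℝ (Fin 2)

theorem exists_embed {X : Type u} [NormedAddCommGroup X] [NormedSpace ℝ X]
    (hX : StrongGurarii X) (F : Type) [NormedAddCommGroup F] [NormedSpace ℝ F]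
    [FiniteDimensional ℝ F] : Nonempty (F →ₗᵢ[ℝ] X) := by
  let f : (⊥ : Submodule ℝ F) →ₗᵢ[ℝ] X :=
    { toLinearMap := 0
      norm_map' := by
        intro x
        have : x = 0 := Subsingleton.elim _ _
        simp [this] }
  obtain ⟨g, -⟩ := hX F ⊥ f
  exact ⟨g⟩

/-- key extension: for every unit vector `u`, a point `z` with prescribed norms. -/
theorem exists_point {X : Type u} [NormedAddCommGroup X] [NormedSpace ℝ X]
    (hX : StrongGurarii X) (j : E2 →ₗᵢ[ℝ] X) (u : E2) (hu : ‖u‖ = 1) :
    ∃ z : X, ∀ e : E2, ‖j e + z‖ = max ‖e‖ |1 + inner ℝ u e| := by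
  -- the functional
  let φ : E2 →ₗ[ℝ] ℝ := (innerSL ℝ u : E2 →L[ℝ] ℝ).toLinearMap
  have hφ : ∀ e, φ e = inner ℝ u e := fun e => rfl
  have hφle : ∀ e, |φ e| ≤ ‖e‖ := by
    intro e
    rw [hφ]
    have := abs_real_inner_le_norm u e
    rwa [hu, one_mul] at this
  let G : Submodule ℝ (E2 × ℝ) := φ.graph
  have hG : ∀ p : G, p.1.2 = φ p.1.1 := fun p => (LinearMap.mem_graph_iff φ _).1 p.2
  let f : G →ₗᵢ[ℝ] X :=
    { toLinearMap := j.toLinearMap ∘ₗ (LinearMap.fst ℝ E2 ℝ) ∘ₗ G.subtype
      norm_map' := by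
        intro p
        have h1 : ‖p‖ = ‖p.1.1‖ := by
          have : ‖p‖ = max ‖p.1.1‖ ‖p.1.2‖ := rfl
          rw [this, hG p, Real.norm_eq_abs]
          exact max_eq_left (hφle _)
        rw [h1]
        simp }
  obtain ⟨g, hg⟩ := hX (E2 × ℝ) G f
  refine ⟨g (0, 1), fun e => ?_⟩
  have h1 : g (e, φ e) = j e := by
    have := hg ⟨(e, φ e), (LinearMap.mem_graph_iff φ _).2 rfl⟩
    simpa [f] using this
  have h2 : j e + g (0, 1) = g (e, φ e + 1) := by
    rw [← h1, ← map_add]
    simp
  rw [h2, g.norm_map]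
  have : ‖((e, φ e + 1) : E2 × ℝ)‖ = max ‖e‖ ‖φ e + 1‖ := rfl
  rw [this, Real.norm_eq_abs, hφ, add_comm]

/-- Points belonging to different unit vectors are at distance at least one. -/
theorem separated {X : Type u} [NormedAddCommGroup X] [NormedSpace ℝ X]
    (j : E2 →ₗᵢ[ℝ] X) (u v : E2) (hu : ‖u‖ = 1) (hv : ‖v‖ = 1) (huv : u ≠ v) (z w : X)
    (hz : ∀ e : E2, ‖j e + z‖ = max ‖e‖ |1 + inner ℝ u e|)
    (hw : ∀ e : E2, ‖j e + w‖ = max ‖e‖ |1 + inner ℝ v e|) : 1 ≤ ‖z - w‖ := by
  have hlt : inner ℝ v u < (1 : ℝ) :=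
    (inner_lt_one_iff_real_of_norm_eq_one hv hu).2 (Ne.symm huv)
  have hge : -1 ≤ (inner ℝ v u : ℝ) := by
    have := abs_real_inner_le_norm v u
    rw [hu, hv, one_mul] at this
    exact (abs_le.1 this).1
  set c : ℝ := inner ℝ v u with hc
  -- choose `r` large
  set r : ℝ := 1 / (1 - c) with hr
  have h1c : 0 < 1 - c := by linarith
  have hrpos : 0 < r := by positivity
  have hrc : r * (1 - c) = 1 := by rw [hr]; field_simp
  have h1 : ‖j (r • u) + z‖ = r + 1 := by
    rw [hz, norm_smul, hu, inner_smul_right, real_inner_self_eq_norm_sq, hu,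
      Real.norm_of_nonneg hrpos.le]
    rw [abs_of_pos (by positivity)]
    rw [max_eq_right (by linarith)]
    ring
  have h2 : ‖j (r • u) + w‖ ≤ r := by
    rw [hw, norm_smul, hu, inner_smul_right, ← hc, Real.norm_of_nonneg hrpos.le]
    apply max_le (by linarith)
    rw [abs_le]
    constructor <;> nlinarith
  have h3 : ‖j (r • u) + z‖ ≤ ‖j (r • u) + w‖ + ‖z - w‖ := by
    have : j (r • u) + z = (j (r • u) + w) + (z - w) := by abel
    rw [this]
    exact norm_add_le _ _
  linarith

/-- Every strong Gurarii space has density at least the cardinality of the continuum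
(completeness of `X` is not even needed).  Hence if the continuum is greater than `ℵ₁`, there is
no strong Gurarii space of density `ℵ₁`. -/
theorem result (X : Type u) [NormedAddCommGroup X] [NormedSpace ℝ X]
    (hX : StrongGurarii X) : 𝔠 ≤ density X := by
  obtain ⟨j⟩ := exists_embed hX E2
  let I : Set ℝ := Set.Icc 0 Real.pi
  let U : ℝ → E2 := fun t => !₂[Real.cos t, Real.sin t]
  have hU : ∀ t, ‖U t‖ = 1 := by
    intro t
    simp [U, EuclideanSpace.norm_eq]
  have hinj : ∀ s ∈ I, ∀ t ∈ I, s ≠ t → U s ≠ U t := by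
    intro s hs t ht hst h
    apply hst
    apply Real.injOn_cos hs ht
    have := congrArg (fun x : E2 => x 0) h
    simpa [U] using this
  choose z hz using fun t : ℝ => exists_point hX j (U t) (hU t)
  apply le_csInf
  · exact ⟨_, Set.univ, dense_univ, rfl⟩
  · rintro κ ⟨s, hs, rfl⟩
    have key : ∀ t : I, ∃ d : s, dist (z t) d < 1 / 2 := by
      intro t
      obtain ⟨d, hd, hdist⟩ := hs.exists_dist_lt (z t) (show (0 : ℝ) < 1 / 2 by norm_num)
      exact ⟨⟨d, hd⟩, hdist⟩
    choose d hd using key
    have dinj : Function.Injective d := by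
      intro a b hab
      by_contra hne
      have hne' : (a : ℝ) ≠ b := fun h => hne (Subtype.ext h)
      have h1 := separated j (U a) (U b) (hU a) (hU b) (hinj a a.2 b b.2 hne') (z a) (z b)
        (hz a) (hz b)
      have h2 := hd a
      have h3 := hd b
      rw [hab] at h2
      have h4 : dist (z a) (z b) < 1 := by
        calc dist (z a) (z b) ≤ dist (z a) (d b) + dist (z b) (d b) := dist_triangle_right _ _ _
          _ < 1 := by linarith
      rw [dist_eq_norm] at h4
      linarith
    have hcard := Cardinal.mk_le_of_injective (α := ULift.{u} I) (β := ULift.{0} s)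
      (f := fun a => ⟨d a.down⟩) (by
        intro a b hab
        have := dinj (ULift.up_injective hab)
        cases a; cases b; simp_all)
    rw [Cardinal.mk_uLift, Cardinal.mk_uLift, Cardinal.mk_Icc_real Real.pi_pos] at hcard
    simpa using hcard

end Pool.Agent.Results.MP_47ceec_an.DensityGeContinuum
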